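import Pool.Agent.W_4481e3_q87.GoR
import Pool.Agent.W_4481e3_tab.T6

/-!
Tree s32o6, data 10.
-/

namespace Pool.Agent.W_4481e3_rt.s32o6

open Pool.Agent.W_4481e3_q25.EvR

theorem k207 : ckO Pool.Agent.W_4481e3_tab.T6.tab 132160 222080 67108864 1048576 1482752 2097152 4 3670016 524288 2621440 524288 522526392 493837352 14344520 14344520 268435456 268435456 16777216 16777216 2118124 2118124 0x100000c00013c01050c1200013c0100bc01003c121 = true := by decide +kernel

theorem k209 : ckO Pool.Agent.W_4481e3_tab.T6.tab 132160 222080 67108864 1048576 1482752 2097152 10 3670016 524288 2621440 524288 493837352 508181872 14344520 28689040 268435456 268435456 16777216 16777216 2118124 2118124 0x100000c00000c00013c00005c00013c00013c02000c2100013c02050c00027c02003c02014c212121212 = true := by decide +kernel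

end Pool.Agent.W_4481e3_rt.s32o6
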